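import Pool.Agent.Y825.TP.Tripod

set_option autoImplicit false

/-!
# Group-based ideals of all trees with at least three leaves need generators of exponential degree

Let `G` be a finite abelian group with more than `931040` elements. For every finite tree `T` with at
least three leaves, and every nontrivial commutative ring of coefficients, the toric ideal `I(G, T)` of
the group-based model is not generated in degrees at most `|G|`, not even up to saturation with respect
to the irrelevant ideal. The starting files contain the three-leaf claw over the complex numbers.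

Method: for three leaves of the tree the flows whose divergence vanishes at all the other leaves form
a face; the value of such a flow at an edge is plus or minus one of the three divergences, or zero
(the edge separates at most one of the three leaves from the two others), so the face is a copy of the
claw `K_{1,3}`, and the two-element fibres of the claw are two-element fibres of the tree.
-/

namespace Pool.Agent.Results.MP_ea11fc_ag.EveryTree

open MvPolynomial

/-- The leaves of a tree: the vertices with exactly one neighbour. -/
def IsLeaf {V : Type} (T : SimpleGraph V) (v : V) : Prop := ∃! w, T.Adj v w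

/-- `tail` and `head` are an orientation of the edges of `T`. -/
def IsOrientation {V : Type} (T : SimpleGraph V) (tail head : T.edgeSet → V) : Prop :=
  ∀ e, s(tail e, head e) = e.1

open scoped Classical in
/-- `f` is a group-based flow: at every vertex that is not a leaf the sum of `f e` over the edges
entering it minus the sum over the edges leaving it is zero. -/
def IsFlow {G V : Type} [AddCommGroup G] (T : SimpleGraph V) [Fintype T.edgeSet]
    (tail head : T.edgeSet → V) (f : T.edgeSet → G) : Prop :=
  ∀ v, ¬ IsLeaf T v → (∑ e with head e = v, f e) - ∑ e with tail e = v, f e = 0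

/-- The set of the flows. -/
abbrev Flow (G : Type) [AddCommGroup G] {V : Type} (T : SimpleGraph V) [Fintype T.edgeSet]
    (tail head : T.edgeSet → V) : Type :=
  {f : T.edgeSet → G // IsFlow T tail head f}

/-- The monomial map `x_f ↦ t^{P_f}`, where `P_f` is the sum of the basis vectors `b_(e, f e)` over
the edges `e`, with coefficients in the ring `R`. -/
noncomputable def param (R G : Type) [CommRing R] [AddCommGroup G] {V : Type} (T : SimpleGraph V)
    [Fintype T.edgeSet] (tail head : T.edgeSet → V) :
    MvPolynomial (Flow G T tail head) R →ₐ[R] MvPolynomial (T.edgeSet × G) R :=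
  aeval fun f => ∏ e, X (e, f.1 e)

/-- The toric ideal `I(G, T)`. -/
noncomputable def toricIdeal (R G : Type) [CommRing R] [AddCommGroup G] {V : Type}
    (T : SimpleGraph V) [Fintype T.edgeSet] (tail head : T.edgeSet → V) :
    Ideal (MvPolynomial (Flow G T tail head) R) :=
  RingHom.ker (param R G T tail head)

/-- The irrelevant ideal, generated by the variables. -/
noncomputable def irrelevant (R σ : Type) [CommRing R] : Ideal (MvPolynomial σ R) :=
  Ideal.span (Set.range X)

theorem param_eq (R G : Type) [CommRing R] [AddCommGroup G] {V : Type} (T : SimpleGraph V)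
    [Fintype T.edgeSet] (tail head : T.edgeSet → V) :
    param R G T tail head =
      Y825.TP.mono R (Y825.TP.EE fun e (f : Flow G T tail head) => f.1 e) := by
  unfold param Y825.TP.mono
  congr 1
  funext f
  show (∏ e, X (e, f.1 e) : MvPolynomial (T.edgeSet × G) R) = monomial (Y825.TP.EE _ f) 1
  rw [Y825.TP.EE, monomial_sum_one]
  rfl

theorem mem_toric {R G : Type} [CommRing R] [AddCommGroup G] {V : Type} {T : SimpleGraph V}
    [Fintype T.edgeSet] {tail head : T.edgeSet → V} (q : MvPolynomial (Flow G T tail head) R) :
    q ∈ toricIdeal R G T tail head ↔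
      Y825.TP.mono R (Y825.TP.EE fun e (f : Flow G T tail head) => f.1 e) q = 0 := by
  rw [toricIdeal, RingHom.mem_ker, param_eq]

/-- three leaves -/
theorem three {V : Type} [Fintype V] {T : SimpleGraph V} (h3 : 3 ≤ {v | IsLeaf T v}.ncard) :
    ∃ l : Fin 3 → V, Function.Injective l ∧ ∀ i, ∃! w, T.Adj (l i) w := by
  classical
  obtain ⟨s, hs, hs3⟩ := Set.exists_subset_card_eq h3
  have hfin : s.Finite := Set.toFinite s
  obtain ⟨a, b, c, hab, hac, hbc, rfl⟩ := Set.ncard_eq_three.1 hs3
  refine ⟨![a, b, c], ?_, ?_⟩
  · intro i j h
    fin_cases i <;> fin_cases j <;> simp_all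
  · intro i
    fin_cases i
    · exact hs (by simp)
    · exact hs (by simp)
    · exact hs (by simp)

theorem lower {R G : Type} [CommRing R] [Nontrivial R] [AddCommGroup G] [Fintype G] {V : Type}
    [Fintype V] {T : SimpleGraph V} [Fintype T.edgeSet] {tail head : T.edgeSet → V}
    (hT : T.IsTree) (ho : IsOrientation T tail head) (h3 : 3 ≤ {v | IsLeaf T v}.ncard)
    {K : ℕ} (hK : 1 ≤ K) (hG : (5 * K + 2) ^ 2 * (6 * K + 2) < Fintype.card G)
    (S : Set (MvPolynomial (Flow G T tail head) R)) (hS : S ⊆ toricIdeal R G T tail head)
    (hd : ∀ q ∈ S, q.totalDegree + 5 < 7 * 2 ^ K) (N : ℕ) :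
    ¬ (irrelevant R (Flow G T tail head) ^ N * toricIdeal R G T tail head ≤ Ideal.span S) := by
  intro hle
  obtain ⟨l, hl, hleaf⟩ := three h3
  have hcore : ∃ (T0 T1 : Flow G T tail head →₀ ℕ) (g0 : Flow G T tail head),
      (∀ g, T0 g = 0 ∨ T1 g = 0) ∧ T0 ≠ T1 ∧ T0.degree + 5 = 7 * 2 ^ K ∧
      Y825.TP.lin (Y825.TP.EE fun e (f : Flow G T tail head) => f.1 e) T0 =
        Y825.TP.lin (Y825.TP.EE fun e (f : Flow G T tail head) => f.1 e) T1 ∧
      ∀ (k : ℕ) (M : Flow G T tail head →₀ ℕ),
        Y825.TP.lin (Y825.TP.EE fun e (f : Flow G T tail head) => f.1 e) M =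
          Y825.TP.lin (Y825.TP.EE fun e (f : Flow G T tail head) => f.1 e)
            (T0 + Finsupp.single g0 k) →
          M = T0 + Finsupp.single g0 k ∨ M = T1 + Finsupp.single g0 k :=
    Y825.TP.core_tree (G := G) hT ho hl hleaf hK hG
  obtain ⟨T0, T1, g0, hdisj, hne, hd0, hlin, hfib⟩ := hcore
  refine Y825.TP.not_mem_span (R := R) _ T0 T1 g0 N hdisj hne
    (fun M hM => hfib N M hM) S ?_ (hle (Ideal.mul_mem_mul
      (Ideal.pow_mem_pow (Ideal.subset_span (Set.mem_range_self g0)) N) ?_))
  · intro q hq
    exact ⟨(mem_toric q).1 (hS hq), by have := hd q hq; omega⟩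
  · exact (mem_toric _).2 (Y825.TP.binomial_mem _ T0 T1 hlin)

/-- Let `T` be a finite tree with at least three leaves, with any orientation of its edges, `R` a
nontrivial commutative ring and `G` a finite abelian group. For every `K ≥ 1` with
`(5K+2)²(6K+2) < |G|`, no set of elements of degree less than `7·2^K - 5` generates `I(G, T)`, not even
up to saturation with respect to the irrelevant ideal. If `|G| > 931040`, then no set of elements of
degree at most `|G|` generates `I(G, T)`, not even up to saturation; in particular every generating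
set contains an element of degree greater than `|G|`. -/
theorem result (R G : Type) [CommRing R] [Nontrivial R] [AddCommGroup G] [Fintype G] {V : Type}
    [Fintype V] (T : SimpleGraph V) [Fintype T.edgeSet] (tail head : T.edgeSet → V)
    (hT : T.IsTree) (ho : IsOrientation T tail head) (h3 : 3 ≤ {v | IsLeaf T v}.ncard) :
    (∀ K : ℕ, 1 ≤ K → (5 * K + 2) ^ 2 * (6 * K + 2) < Fintype.card G →
      ∀ S : Set (MvPolynomial (Flow G T tail head) R), S ⊆ toricIdeal R G T tail head →
        (∀ q ∈ S, q.totalDegree + 5 < 7 * 2 ^ K) →
        ∀ N : ℕ, ¬ (irrelevant R (Flow G T tail head) ^ N * toricIdeal R G T tail head ≤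
          Ideal.span S)) ∧
    (931040 < Fintype.card G →
      (∀ S : Set (MvPolynomial (Flow G T tail head) R), S ⊆ toricIdeal R G T tail head →
        (∀ q ∈ S, q.totalDegree ≤ Fintype.card G) →
        ∀ N : ℕ, ¬ (irrelevant R (Flow G T tail head) ^ N * toricIdeal R G T tail head ≤
          Ideal.span S)) ∧
      ∀ S : Set (MvPolynomial (Flow G T tail head) R), Ideal.span S = toricIdeal R G T tail head →
        ∃ q ∈ S, Fintype.card G < q.totalDegree) := by
  have key : 931040 < Fintype.card G →
      ∀ S : Set (MvPolynomial (Flow G T tail head) R), S ⊆ toricIdeal R G T tail head →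
        (∀ q ∈ S, q.totalDegree ≤ Fintype.card G) →
        ∀ N : ℕ, ¬ (irrelevant R (Flow G T tail head) ^ N * toricIdeal R G T tail head ≤
          Ideal.span S) := by
    intro hG S hS hd N
    obtain ⟨K, hK, h1, h2⟩ := TH201.Ph.exists_K _ hG
    refine lower hT ho h3 hK h1 S hS (fun q hq => ?_) N
    have := hd q hq
    omega
  refine ⟨fun K hK hG S hS hd N => lower hT ho h3 hK hG S hS hd N, fun hG => ⟨key hG, ?_⟩⟩
  intro S hS
  by_contra hcon
  push Not at hcon
  refine key hG S (fun q hq => ?_) hcon 0 ?_
  · rw [← hS]
    exact Ideal.subset_span hq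
  · rw [hS, pow_zero, Ideal.one_eq_top, Ideal.top_mul]

end Pool.Agent.Results.MP_ea11fc_ag.EveryTree
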